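import Pool.Agent.H598R3.AvFin

/-!
All sizes occur when `100 √q < k < q + 1 - 100 √q`.
-/

set_option autoImplicit false
set_option linter.unusedSectionVars false

namespace Pool.Agent.H598R3

open Finset

variable {F : Type*} [Field F] [Fintype F] [DecidableEq F]

lemma small {k m : ℕ} (hk3 : 3 ≤ k) (hkq : k < Fintype.card F)
    (hm : m < (k - 2) * Fintype.card F) : Sz F k m := by
  have hq : 0 < Fintype.card F := Fintype.card_pos
  have h1 : m / Fintype.card F < k - 2 := (Nat.div_lt_iff_lt_mul hq).2 hm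
  have h2 := exists_small (F := F) k (m / Fintype.card F) (m % Fintype.card F) hk3 hkq (by omega)
    (Nat.mod_lt _ hq)
  have h3 : m / Fintype.card F * Fintype.card F + m % Fintype.card F = m := by
    rw [mul_comm]; exact Nat.div_add_mod m _
  rwa [h3] at h2

lemma mid {n k m : ℕ} (hq : Fintype.card F ≤ n ^ 2) (hk1 : 20 * n + 5 ≤ k)
    (hk2 : 2 * k ≤ Fintype.card F + 1)
    (hn : 10 ≤ n) (hm1 : k * Fintype.card F ≤ m + 3 * Fintype.card F)
    (hm2 : m ≤ (k + 3) * Fintype.card F) : Sz F k m := by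
  obtain ⟨g, hg0, hg1⟩ := exists_gen (F := F)
  have hg : Inj g (12 * n) := ⟨hg0, fun i j hi hj h => hg1 i j (by omega) (by omega) h⟩
  rcases Nat.mod_two_eq_zero_or_one (Fintype.card F) with h | h
  · have h2 : ringChar F = 2 := FiniteField.even_card_iff_char_two.2 h
    have : CharP F 2 := by
      have := ringChar.charP F
      rwa [h2] at this
    have h4 : Fintype.card F % 4 = 0 := by
      obtain ⟨e, -, he⟩ := FiniteField.card F 2
      have he2 : 2 ≤ (e : ℕ) := by
        by_contra hcon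
        have : (e : ℕ) = 0 ∨ (e : ℕ) = 1 := by omega
        rcases this with h5 | h5
        · rw [h5] at he; simp at he; omega
        · rw [h5] at he; simp at he; omega
      rw [he]
      obtain ⟨c, hc⟩ : ∃ c, (e : ℕ) = 2 + c := ⟨(e : ℕ) - 2, by omega⟩
      rw [hc, pow_add]
      norm_num [Nat.mul_mod]
    exact mid_even hg h4 hq hk1 hk2 hn hm1 hm2
  · exact mid_odd hg h hq hk1 hk2 hn hm1 hm2

lemma half {n k m : ℕ} (hq : Fintype.card F ≤ n ^ 2) (hk1 : 20 * n + 5 ≤ k)
    (hk2 : 2 * k ≤ Fintype.card F + 1) (hn : 10 ≤ n)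
    (hm : m ≤ Fintype.card F ^ 2 + Fintype.card F + 1) : Sz F k m := by
  by_cases h1 : m < (k - 2) * Fintype.card F
  · exact small (by omega) (by omega) h1
  push Not at h1
  by_cases h2 : m ≤ (k + 3) * Fintype.card F
  · refine mid hq hk1 hk2 hn ?_ h2
    have : (k - 2) * Fintype.card F + 2 * Fintype.card F = k * Fintype.card F := by
      rw [← add_mul]; congr 1; omega
    omega
  push Not at h2
  obtain ⟨m', hm'⟩ : ∃ m', m + m' = Fintype.card F ^ 2 + Fintype.card F + 1 :=
    ⟨_, Nat.add_sub_cancel' hm⟩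
  obtain ⟨k', hk'⟩ : ∃ k', k + k' = Fintype.card F + 1 := ⟨Fintype.card F + 1 - k, by omega⟩
  have h3 : Sz F k' m' := by
    apply small (by omega) (by omega)
    have h4 : (k' - 2) + k + 1 = Fintype.card F := by omega
    have h5 : (k' - 2) * Fintype.card F + (k + 1) * Fintype.card F = Fintype.card F ^ 2 := by
      rw [← add_mul, ← add_assoc, h4, sq]
    have h6 : (k + 3) * Fintype.card F = (k + 1) * Fintype.card F + 2 * Fintype.card F := by ring
    omega
  exact h3.compl (by omega) (by omega)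

theorem all_sizes (k : ℕ) (h1 : 100 * Real.sqrt (Fintype.card F : ℝ) < (k : ℝ))
    (h2 : (k : ℝ) < (Fintype.card F : ℝ) + 1 - 100 * Real.sqrt (Fintype.card F : ℝ))
    (m : ℕ) (hm : m ≤ Fintype.card F ^ 2 + Fintype.card F + 1) : Sz F k m := by
  set q := Fintype.card F with hqdef
  set n := Nat.sqrt q + 1 with hn
  have hq1 : 1 < q := Fintype.one_lt_card
  have hqn : q ≤ n ^ 2 := by
    rw [hn, sq]
    exact (Nat.lt_succ_sqrt q).le
  have hsq : (Nat.sqrt q : ℝ) ≤ Real.sqrt q := Real.nat_sqrt_le_real_sqrt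
  have hs0 : 0 ≤ Real.sqrt (q : ℝ) := Real.sqrt_nonneg _
  have hss : Real.sqrt (q : ℝ) * Real.sqrt (q : ℝ) = q := Real.mul_self_sqrt (by positivity)
  have hs1 : 1 ≤ Real.sqrt (q : ℝ) := by
    rw [Real.one_le_sqrt]
    exact_mod_cast hq1.le
  have hs2 : 199 ≤ Real.sqrt (q : ℝ) := by
    by_contra hcon
    push Not at hcon
    nlinarith
  have hs3 : Real.sqrt (q : ℝ) ≤ Nat.sqrt q + 1 := Real.real_sqrt_le_nat_sqrt_succ
  have hnn : 10 ≤ n := by
    have : (10 : ℝ) ≤ (n : ℝ) := by
      rw [hn]; push_cast; linarith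
    exact_mod_cast this
  have hk1 : 20 * n + 5 ≤ k := by
    have : (20 : ℝ) * n + 5 ≤ (k : ℝ) := by
      rw [hn]; push_cast; linarith
    exact_mod_cast this
  have hk2 : 20 * n + 5 + k ≤ q + 1 := by
    have : (20 : ℝ) * n + 5 + k ≤ (q : ℝ) + 1 := by
      rw [hn]; push_cast; linarith
    exact_mod_cast this
  by_cases hh : 2 * k ≤ q + 1
  · exact half hqn hk1 hh hnn hm
  · obtain ⟨m', hm'⟩ : ∃ m', m + m' = Fintype.card F ^ 2 + Fintype.card F + 1 :=
      ⟨_, Nat.add_sub_cancel' hm⟩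
    obtain ⟨k', hk'⟩ : ∃ k', k + k' = Fintype.card F + 1 := ⟨Fintype.card F + 1 - k, by omega⟩
    have h3 : Sz F k' m' := half hqn (by omega) (by omega) hnn (by omega)
    exact h3.compl (by omega) (by omega)

end Pool.Agent.H598R3
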