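import Mathlib

/-!
Arithmetic selection of the number of switched rows.
-/

set_option autoImplicit false

namespace Pool.Agent.H598R3

lemma select (q n k m e d : ℕ) (ρ : ℤ) (hq : q ≤ n ^ 2) (hk1 : 20 * n + 5 ≤ k)
    (hk2 : 2 * k ≤ q + 1) (hn : 10 ≤ n) (he : e ≤ 1) (hd : d ≤ 1)
    (hm1 : k * q ≤ m + 3 * q) (hm2 : m ≤ (k + 3) * q)
    (hcong : ∀ t : ℤ, t % 4 = ρ % 4 →
      (8 * n * q + 32 * n ^ 2 + e * (q + 1) + t * (q - 16 * n - 2 * e) - (m - d)) % 4 = 0) :
    ∃ t j : ℕ, (t : ℤ) % 4 = ρ % 4 ∧ 12 * n ≤ t ∧ t + k < q + 2 * n ∧ n * (n + 1) ≤ 2 * j ∧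
      2 * j ≤ n * (n + 1) + 2 * n ^ 2 ∧
      (8 * n * q + 32 * n ^ 2 + e * (q + 1) + t * (q - 16 * n - 2 * e) - 4 * j + d : ℤ) = m := by
  -- integer versions of the hypotheses
  have zq : (q : ℤ) ≤ n ^ 2 := by exact_mod_cast hq
  have zk1 : 20 * (n : ℤ) + 5 ≤ k := by exact_mod_cast hk1
  have zk2 : 2 * (k : ℤ) ≤ q + 1 := by exact_mod_cast hk2
  have zn : (10 : ℤ) ≤ n := by exact_mod_cast hn
  have ze : (e : ℤ) ≤ 1 := by exact_mod_cast he
  have ze0 : (0 : ℤ) ≤ e := by positivity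
  have zd : (d : ℤ) ≤ 1 := by exact_mod_cast hd
  have zd0 : (0 : ℤ) ≤ d := by positivity
  have zm1 : (k : ℤ) * q ≤ m + 3 * q := by exact_mod_cast hm1
  have zm2 : (m : ℤ) ≤ (k + 3) * q := by exact_mod_cast hm2
  obtain ⟨J, hJ⟩ : ∃ J : ℤ, 2 * J = n * (n + 1) := by
    have h := Int.even_mul_succ_self (n : ℤ)
    obtain ⟨r, hr⟩ := h
    exact ⟨r, by rw [hr]; ring⟩
  set s : ℤ := q - 16 * n - 2 * e with hs
  set C : ℤ := 8 * n * q + 32 * n ^ 2 + e * (q + 1) with hC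
  set x : ℤ := m - d + 4 * J - C with hx
  have hs0 : 0 < s := by rw [hs]; linarith
  have hs1 : s ≤ n ^ 2 := by rw [hs]; linarith
  -- lower bound for x
  have hlow : 12 * n * s ≤ x := by
    have e1 : (e : ℤ) * (q + 1) ≤ q + 1 := by
      have : (0 : ℤ) ≤ q + 1 := by positivity
      nlinarith
    have e2 : 12 * (n : ℤ) * s ≤ 12 * n * (q - 16 * n) := by
      apply mul_le_mul_of_nonneg_left
      · rw [hs]; linarith
      · positivity
    have e3 : (20 * (n : ℤ) + 5) * q ≤ k * q := mul_le_mul_of_nonneg_right zk1 (by positivity)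
    have e4 : 4 * J = 2 * (n * (n + 1)) := by rw [← hJ]; ring
    rw [hx, hC, e4]
    nlinarith
  have hup : x ≤ s * (q + 2 * n - k - 5) := by
    have e4 : 4 * J = 2 * (n * (n + 1)) := by rw [← hJ]; ring
    have hD : (0 : ℤ) ≤ q + 1 - 2 * k := by linarith
    have h1 : (0 : ℤ) ≤ (q + 1 - 2 * k) * (q - 8 * n) :=
      mul_nonneg hD (by linarith)
    have h2 : (0 : ℤ) ≤ (q - 40 * n) * (2 * n - 10) := mul_nonneg (by linarith) (by linarith)
    have h3 : (e : ℤ) * (q + 4 * n - 2 * k - 11) ≤ q + 4 * n - 2 * k - 11 ∨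
        (e : ℤ) * (q + 4 * n - 2 * k - 11) ≤ 0 := by
      rcases Nat.le_one_iff_eq_zero_or_eq_one.1 he with h | h
      · right; rw [h]; simp
      · left; rw [h]; simp
    have h4 : s * (q + 2 * n - k - 5) - x =
        (q + 1 - 2 * k) * (q - 8 * n) + q * (2 * n - 9) - 2 * n ^ 2 + 86 * n -
          e * (q + 4 * n - 2 * k - 11) + ((k + 3) * q - m) + d := by
      rw [hx, hs, hC, e4]
      ring
    have h5 : (0 : ℤ) ≤ (k + 3) * q - m := by linarith
    have h6 : (0 : ℤ) ≤ (q : ℤ) := by positivity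
    have h7 : 0 ≤ s * (q + 2 * n - k - 5) - x := by
      rw [h4]
      rcases h3 with h3 | h3 <;> nlinarith
    linarith
  set t0 : ℤ := x / s + 1 with ht0
  have ht0a : (t0 - 1) * s ≤ x := by
    rw [ht0]
    have := Int.ediv_mul_le x (ne_of_gt hs0)
    linarith
  have ht0b : x < t0 * s := by
    rw [ht0]
    exact Int.lt_ediv_add_one_mul_self x hs0
  set t : ℤ := t0 + (ρ - t0) % 4 with ht
  have hr0 : 0 ≤ (ρ - t0) % 4 := Int.emod_nonneg _ (by norm_num)
  have hr1 : (ρ - t0) % 4 < 4 := Int.emod_lt_of_pos _ (by norm_num)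
  have htmod : t % 4 = ρ % 4 := by rw [ht]; omega
  have hta : x < t * s := by
    have : t0 * s ≤ t * s := mul_le_mul_of_nonneg_right (by linarith) hs0.le
    linarith
  have htb : t * s ≤ x + 4 * s := by
    have : t * s ≤ (t0 + 3) * s := mul_le_mul_of_nonneg_right (by omega) hs0.le
    nlinarith
  have h12 : 12 * (n : ℤ) < t0 := by
    by_contra hcon
    push Not at hcon
    have : t0 * s ≤ 12 * n * s := mul_le_mul_of_nonneg_right hcon hs0.le
    linarith
  have hcap : t0 - 1 ≤ q + 2 * n - k - 5 := by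
    by_contra hcon
    push Not at hcon
    have h1 : (q + 2 * n - k - 5 + 1) * s ≤ (t0 - 1) * s :=
      mul_le_mul_of_nonneg_right (by linarith) hs0.le
    nlinarith
  have hmod := hcong t htmod
  have hmod2 : (C + t * s - (m - d)) % 4 = 0 := hmod
  obtain ⟨j, hj⟩ : ∃ j : ℤ, C + t * s - (m - d) = 4 * j :=
    ⟨(C + t * s - (m - d)) / 4, by omega⟩
  have hj1 : 4 * J < 4 * j := by
    rw [← hj]; linarith
  have hj2 : 4 * j ≤ 4 * J + 4 * s := by
    rw [← hj]; linarith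
  have hJ0 : 0 ≤ J := by nlinarith
  refine ⟨t.toNat, j.toNat, ?_, ?_, ?_, ?_, ?_, ?_⟩
  · rw [Int.toNat_of_nonneg (by linarith)]; exact htmod
  · omega
  · omega
  · zify
    rw [Int.toNat_of_nonneg (by linarith)]
    linarith
  · zify
    rw [Int.toNat_of_nonneg (by linarith)]
    linarith
  · rw [Int.toNat_of_nonneg (by linarith), Int.toNat_of_nonneg (by linarith), ← hj]
    ring

end Pool.Agent.H598R3
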