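import Pool.Agent.H598R3.AvSmall

/-!
The base set: symmetric difference of the lines `(0, a)`, `a ∈ A`, and `(b, 0)`, `b ∈ B`.
-/

set_option autoImplicit false
set_option linter.unusedSectionVars false

namespace Pool.Agent.H598R3

open Finset

variable {F : Type*} [Field F] [Fintype F] [DecidableEq F]

/-- the multiples of the elements of `B` by `y` -/
def mulS (B : Finset F) (y : F) : Finset F := B.image (fun b => b * y)

lemma mem_mulS {B : Finset F} {y x : F} (hy : y ≠ 0) : x ∈ mulS B y ↔ x / y ∈ B := by
  unfold mulS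
  rw [mem_image]
  constructor
  · rintro ⟨b, hb, rfl⟩
    rwa [mul_div_cancel_right₀ _ hy]
  · intro h
    exact ⟨x / y, h, div_mul_cancel₀ _ hy⟩

lemma card_mulS {B : Finset F} {y : F} (hy : y ≠ 0) : (mulS B y).card = B.card := by
  unfold mulS
  apply card_image_of_injective
  intro a b h
  exact mul_right_cancel₀ hy h

/-- the base family -/
def K0 (A B : Finset F) : Option F → Finset F
  | none => B
  | some y => if y = 0 then A else symmDiff A (mulS B y)

/-- number of triple points on the line number `y` -/
def wt (A B : Finset F) (y : F) : ℕ := (A ∩ mulS B y).card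

/-- indicator in `ZMod 2` -/
def ind (A : Finset F) (x : F) : ZMod 2 := if x ∈ A then 1 else 0

lemma ind_symmDiff (A C : Finset F) (x : F) :
    ind (symmDiff A C) x = ind A x + ind C x := by
  unfold ind
  simp only [Finset.mem_symmDiff]
  by_cases h1 : x ∈ A <;> by_cases h2 : x ∈ C <;> simp [h1, h2]
  decide

lemma card_eq_sum_ind (K : Option F → Finset F) (x : Option F → F) :
    (((univ : Finset (Option F)).filter (fun r => x r ∈ K r)).card : ZMod 2) =
      ∑ r, ind (K r) (x r) := by
  rw [card_filter]
  push_cast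
  rfl

lemma card_symmDiff' (A C : Finset F) :
    ((symmDiff A C).card : ℤ) = A.card + C.card - 2 * (A ∩ C).card := by
  have h1 : (symmDiff A C).card = (A \ C).card + (C \ A).card := by
    rw [symmDiff_def, Finset.sup_eq_union, card_union_of_disjoint]
    exact disjoint_sdiff_sdiff
  have h2 := Finset.card_sdiff_add_card_inter A C
  have h3 := Finset.card_sdiff_add_card_inter C A
  rw [inter_comm C A] at h3
  omega

lemma card_K0_some {A B : Finset F} {y : F} (hy : y ≠ 0) :
    ((K0 A B (some y)).card : ℤ) = A.card + B.card - 2 * wt A B y := by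
  simp only [K0, if_neg hy]
  rw [card_symmDiff', card_mulS hy]
  rfl

lemma sum_nonzero {M : Type*} [AddCommMonoid M] (f : F → M) :
    ∑ y, f y = f 0 + ∑ y ∈ univ.filter (fun y : F => y ≠ 0), f y := by
  have h1 := Finset.sum_filter_add_sum_filter_not (univ : Finset F) (fun y : F => y = 0) f
  rw [← h1]
  congr 1
  rw [Finset.filter_eq' univ (0 : F)]
  simp

lemma sum_wt (A B : Finset F) (hA : (0 : F) ∉ A) (hB : (0 : F) ∉ B) :
    ∑ y ∈ univ.filter (fun y : F => y ≠ 0), wt A B y = A.card * B.card := by
  have h1 : ∀ y ∈ univ.filter (fun y : F => y ≠ 0), wt A B y =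
      ∑ a ∈ A, if a ∈ mulS B y then 1 else 0 := by
    intro y hy
    unfold wt
    rw [← Finset.card_filter]
    congr 1
  rw [Finset.sum_congr rfl h1, Finset.sum_comm]
  have h2 : ∀ a ∈ A, ∑ y ∈ univ.filter (fun y : F => y ≠ 0),
      (if a ∈ mulS B y then 1 else 0) = B.card := by
    intro a ha
    have ha0 : a ≠ 0 := fun h => hA (h ▸ ha)
    rw [← Finset.card_filter]
    have h3 : (univ.filter (fun y : F => y ≠ 0)).filter (fun y => a ∈ mulS B y) =
        B.image (fun b => a / b) := by
      ext y
      rw [mem_filter, mem_filter, mem_image]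
      constructor
      · rintro ⟨⟨-, hy⟩, h⟩
        rw [mem_mulS hy] at h
        refine ⟨a / y, h, ?_⟩
        field_simp
      · rintro ⟨b, hb, rfl⟩
        have hb0 : b ≠ 0 := fun h => hB (h ▸ hb)
        have hab : a / b ≠ 0 := div_ne_zero ha0 hb0
        refine ⟨⟨mem_univ _, hab⟩, ?_⟩
        rw [mem_mulS hab]
        have : a / (a / b) = b := by field_simp
        rwa [this]
    rw [h3, card_image_of_injOn]
    intro b hb b' hb' h
    have hb0 : b ≠ 0 := fun h => hB (h ▸ hb)
    have hb0' : b' ≠ 0 := fun h => hB (h ▸ hb')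
    simp only at h
    rw [div_eq_div_iff hb0 hb0'] at h
    exact (mul_left_cancel₀ ha0 h).symm
  rw [Finset.sum_congr rfl h2, sum_const, smul_eq_mul]

lemma sum_aff (A : Finset F) (u v : F) (hu : u ≠ 0) :
    ∑ y : F, ind A (u * y + v) = (A.card : ZMod 2) := by
  have h : ∑ y : F, ind A (u * y + v) = ∑ x : F, ind A x := by
    apply Fintype.sum_bijective (fun y : F => u * y + v)
    · constructor
      · intro a b hab
        simp only at hab
        exact mul_left_cancel₀ hu (add_right_cancel hab)
      · intro x
        refine ⟨(x - v) / u, ?_⟩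
        simp only
        rw [mul_div_cancel₀ _ hu, sub_add_cancel]
    · intro y; rfl
  rw [h]
  unfold ind
  rw [Finset.sum_boole]
  congr 2
  ext x; simp

lemma ind_mulS (B : Finset F) {y : F} (hy : y ≠ 0) (x : F) : ind (mulS B y) x = ind B (x / y) := by
  unfold ind
  simp only [mem_mulS hy]

lemma sum_inv (B : Finset F) (u v : F) (hv : v ≠ 0) :
    ∑ y ∈ univ.filter (fun y : F => y ≠ 0), ind (mulS B y) (u * y + v) =
      (B.card : ZMod 2) + ind B u := by
  have h1 : ∑ y ∈ univ.filter (fun y : F => y ≠ 0), ind (mulS B y) (u * y + v) =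
      ∑ t ∈ univ.filter (fun y : F => y ≠ 0), ind B (u + t) := by
    apply Finset.sum_nbij' (fun y => v / y) (fun t => v / t)
    · intro y hy
      rw [mem_filter] at hy ⊢
      exact ⟨mem_univ _, div_ne_zero hv hy.2⟩
    · intro y hy
      rw [mem_filter] at hy ⊢
      exact ⟨mem_univ _, div_ne_zero hv hy.2⟩
    · intro y hy
      rw [mem_filter] at hy
      have := hy.2
      field_simp
    · intro y hy
      rw [mem_filter] at hy
      have := hy.2
      field_simp
    · intro y hy
      rw [mem_filter] at hy
      have h2 : (u * y + v) / y = u + v / y := by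
        have := hy.2
        field_simp
      rw [ind_mulS B hy.2, h2]
  have h2 := sum_nonzero (fun t : F => ind B (u + t))
  have h3 := sum_aff B 1 u one_ne_zero
  have h4 : ∑ y : F, ind B (1 * y + u) = ∑ y : F, ind B (u + y) := by
    apply Finset.sum_congr rfl
    intro y _
    rw [one_mul, add_comm]
  rw [h4, h2, add_zero] at h3
  rw [h1, ← h3, add_comm, ← add_assoc, ← two_mul]
  have : (2 : ZMod 2) = 0 := by decide
  rw [this, zero_mul, zero_add]

lemma base_parity (A B : Finset F)
    (hAe : (A.card : ZMod 2) = 0) (hBe : (B.card : ZMod 2) = 0) (u v : F) :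
    (((univ : Finset (Option F)).filter (fun r => pos u v r ∈ K0 A B r)).card : ZMod 2) =
      (if u = 0 then (Fintype.card F : ZMod 2) * ind A v else 0) +
      (if v = 0 then (Fintype.card F : ZMod 2) * ind B u else 0) := by
  have two : (2 : ZMod 2) = 0 := by decide
  rw [card_eq_sum_ind, Fintype.sum_option, sum_nonzero]
  have e1 : ind (K0 A B none) (pos u v none) = ind B u := rfl
  have e2 : ind (K0 A B (some 0)) (pos u v (some 0)) = ind A v := by
    simp only [pos, K0, mul_zero, zero_add, if_true]
  have h1 : ∑ y ∈ univ.filter (fun y : F => y ≠ 0), ind (K0 A B (some y)) (pos u v (some y)) =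
      ∑ y ∈ univ.filter (fun y : F => y ≠ 0), ind A (u * y + v) +
      ∑ y ∈ univ.filter (fun y : F => y ≠ 0), ind (mulS B y) (u * y + v) := by
    rw [← Finset.sum_add_distrib]
    apply Finset.sum_congr rfl
    intro y hy
    rw [mem_filter] at hy
    simp only [K0, pos, if_neg hy.2]
    exact ind_symmDiff A (mulS B y) _
  rw [e1, e2, h1]
  have h2 := sum_nonzero (fun y : F => ind A (u * y + v))
  simp only [mul_zero, zero_add] at h2
  have h3 : ind A v + ∑ y ∈ univ.filter (fun y : F => y ≠ 0), ind A (u * y + v) =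
      (if u = 0 then (Fintype.card F : ZMod 2) * ind A v else 0) := by
    rw [← h2]
    by_cases hu : u = 0
    · subst hu
      simp only [zero_mul, zero_add, if_true]
      rw [Finset.sum_const, card_univ, nsmul_eq_mul]
    · rw [sum_aff A u v hu, hAe]
      simp [hu]
  have h4 : ind B u + ∑ y ∈ univ.filter (fun y : F => y ≠ 0), ind (mulS B y) (u * y + v) =
      (if v = 0 then (Fintype.card F : ZMod 2) * ind B u else 0) := by
    by_cases hv : v = 0
    · subst hv
      have h5 : ∑ y ∈ univ.filter (fun y : F => y ≠ 0), ind (mulS B y) (u * y + 0) =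
          ∑ y ∈ univ.filter (fun y : F => y ≠ 0), ind B u := by
        apply Finset.sum_congr rfl
        intro y hy
        rw [mem_filter] at hy
        rw [add_zero, ind_mulS B hy.2, mul_div_cancel_right₀ _ hy.2]
      rw [h5]
      have h6 := sum_nonzero (fun _ : F => ind B u)
      rw [← h6, Finset.sum_const, card_univ, nsmul_eq_mul]
      simp only [if_true]
    · rw [sum_inv B u v hv, hBe, zero_add, ← two_mul, two, zero_mul]
      simp [hv]
  rw [← h3, ← h4]
  ring

lemma sum_card_K0 (A B : Finset F) (hA : (0 : F) ∉ A) (hB : (0 : F) ∉ B) :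
    ∑ r, ((K0 A B r).card : ℤ) = (Fintype.card F : ℤ) * (A.card + B.card) -
      2 * (A.card * B.card) := by
  rw [Fintype.sum_option, sum_nonzero]
  have h1 : ∑ y ∈ univ.filter (fun y : F => y ≠ 0), ((K0 A B (some y)).card : ℤ) =
      ∑ y ∈ univ.filter (fun y : F => y ≠ 0), ((A.card + B.card : ℤ) - 2 * wt A B y) := by
    apply Finset.sum_congr rfl
    intro y hy
    rw [mem_filter] at hy
    exact card_K0_some hy.2
  have h2 : ((univ.filter (fun y : F => y ≠ 0)).card : ℤ) = Fintype.card F - 1 := by
    have h3 := sum_nonzero (fun _ : F => (1 : ℤ))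
    simp only [sum_const, nsmul_eq_mul, mul_one, card_univ] at h3
    linarith
  rw [h1, Finset.sum_sub_distrib, ← Finset.mul_sum, Finset.sum_const, nsmul_eq_mul, h2]
  have h3 := sum_wt A B hA hB
  have h4 : ∑ y ∈ univ.filter (fun y : F => y ≠ 0), (wt A B y : ℤ) = A.card * B.card := by
    exact_mod_cast h3
  rw [h4]
  simp only [K0, if_true]
  ring

end Pool.Agent.H598R3
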