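import Pool.Agent.H598R3.AvBase

/-!
The sets `A = {g^(2i)}`, `B = {g^j}` for a generator `g`, their weights, and subset sums.
-/

set_option autoImplicit false
set_option linter.unusedSectionVars false

namespace Pool.Agent.H598R3

open Finset

/-- every integer between the least and the largest sum of `z` elements of `{1, ..., n}` is such
a sum -/
lemma subset_sum (n : ℕ) : ∀ z ≤ n, ∀ j, z * (z + 1) ≤ 2 * j → 2 * j ≤ z * (2 * n + 1 - z) →
    ∃ Z ⊆ Finset.Icc 1 n, Z.card = z ∧ ∑ l ∈ Z, l = j := by
  induction n with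
  | zero =>
    intro z hz j h1 h2
    have hz0 : z = 0 := by omega
    subst hz0
    refine ⟨∅, by simp, by simp, ?_⟩
    simp
    omega
  | succ n ih =>
    intro z hz j h1 h2
    rcases Nat.eq_zero_or_pos z with hz0 | hz0
    · subst hz0
      refine ⟨∅, by simp, by simp, ?_⟩
      simp
      omega
    -- use the element `n+1` iff the rest is large enough
    by_cases hc : z ≤ n ∧ 2 * j ≤ z * (2 * n + 1 - z)
    · obtain ⟨Z, hZ, hZ1, hZ2⟩ := ih z hc.1 j h1 hc.2
      exact ⟨Z, hZ.trans (Finset.Icc_subset_Icc_right (by omega)), hZ1, hZ2⟩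
    · obtain ⟨w, rfl⟩ : ∃ w, z = w + 1 := ⟨z - 1, by omega⟩
      have hw : w ≤ n := by omega
      obtain ⟨t, ht⟩ : ∃ t, n = w + t := ⟨n - w, by omega⟩
      have e1 : 2 * (n + 1) + 1 - (w + 1) = w + 2 * t + 2 := by omega
      have e2 : 2 * n + 1 - w = w + 2 * t + 1 := by omega
      rw [e1] at h2
      have hge : n + 1 ≤ j ∧ w * (w + 1) ≤ 2 * (j - (n + 1)) := by
        by_cases ht0 : t = 0
        · subst ht0
          have : n = w := by omega
          subst this
          constructor
          · nlinarith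
          · have : (n + 1) * (n + 1 + 1) = n * (n + 1) + 2 * (n + 1) := by ring
            omega
        · have h3 : ¬ (2 * j ≤ (w + 1) * (2 * n + 1 - (w + 1))) := by
            intro h4
            exact hc ⟨by omega, h4⟩
          have e3 : 2 * n + 1 - (w + 1) = w + 2 * t := by omega
          rw [e3] at h3
          push Not at h3
          have h5 : w * (w + 1) + 2 * (n + 1) ≤ 2 * j := by
            subst ht
            have ht1 : w * 1 ≤ w * t := Nat.mul_le_mul_left w (by omega)
            have : w * (w + 1) + 2 * (w + t + 1) ≤ (w + 1) * (w + 2 * t) + 2 := by nlinarith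
            have h6 : (w + 1) * (w + 2 * t) + 1 ≤ 2 * j := h3
            have h7 : ((w + 1) * (w + 2 * t)) % 2 = (w * (w + 1)) % 2 := by
              have : (w + 1) * (w + 2 * t) = w * (w + 1) + 2 * ((w + 1) * t) := by ring
              rw [this]; omega
            have h8 : (w * (w + 1)) % 2 = 0 := Nat.even_iff.1 (Nat.even_mul_succ_self w)
            omega
          constructor
          · omega
          · omega
      obtain ⟨Z, hZ, hZ1, hZ2⟩ := ih w hw (j - (n + 1)) hge.2 (by
        rw [e2]
        have : (w + 1) * (w + 2 * t + 2) = w * (w + 2 * t + 1) + 2 * (n + 1) := by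
          subst ht; ring
        omega)
      have hn : n + 1 ∉ Z := by
        intro h
        have := hZ h
        rw [Finset.mem_Icc] at this
        omega
      refine ⟨insert (n + 1) Z, ?_, ?_, ?_⟩
      · intro x hx
        rw [Finset.mem_insert] at hx
        rcases hx with rfl | hx
        · rw [Finset.mem_Icc]; omega
        · have := hZ hx
          rw [Finset.mem_Icc] at this ⊢
          omega
      · rw [Finset.card_insert_of_notMem hn, hZ1]
      · rw [Finset.sum_insert hn, hZ2]
        omega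

variable {F : Type*} [Field F] [Fintype F] [DecidableEq F]

/-- `{g^(2i) : i < 4n}` -/
def AA (g : F) (n : ℕ) : Finset F := (range (4 * n)).image (fun i => g ^ (2 * i))

/-- `{g^j : j < 4n}` -/
def BB (g : F) (n : ℕ) : Finset F := (range (4 * n)).image (fun j => g ^ j)

/-- the powers of `g` up to `N` are distinct -/
def Inj (g : F) (N : ℕ) : Prop := g ≠ 0 ∧ ∀ i j, i < N → j < N → g ^ i = g ^ j → i = j

lemma exists_gen : ∃ g : F, Inj g (Fintype.card F - 1) := by
  obtain ⟨g, hg⟩ := IsCyclic.exists_generator (α := Fˣ)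
  refine ⟨(g : F), g.ne_zero, ?_⟩
  intro i j hi hj h
  have ho : orderOf g = Fintype.card F - 1 := by
    rw [orderOf_eq_card_of_forall_mem_zpowers hg, Nat.card_eq_fintype_card, Fintype.card_units]
  have h2 : g ^ i = g ^ j := by
    ext
    push_cast
    exact h
  exact pow_injOn_Iio_orderOf (by simpa [ho] using hi) (by simpa [ho] using hj) h2

section

variable {g : F} {n : ℕ} (hg : Inj g (12 * n))
include hg

lemma zero_notMem_AA : (0 : F) ∉ AA g n := by
  unfold AA
  rw [mem_image]
  rintro ⟨i, -, h⟩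
  exact pow_ne_zero _ hg.1 h

lemma zero_notMem_BB : (0 : F) ∉ BB g n := by
  unfold BB
  rw [mem_image]
  rintro ⟨i, -, h⟩
  exact pow_ne_zero _ hg.1 h

lemma card_AA : (AA g n).card = 4 * n := by
  unfold AA
  rw [card_image_of_injOn, card_range]
  intro i hi j hj h
  simp only [coe_range, Set.mem_Iio] at hi hj
  have := hg.2 (2 * i) (2 * j) (by omega) (by omega) h
  omega

lemma card_BB : (BB g n).card = 4 * n := by
  unfold BB
  rw [card_image_of_injOn, card_range]
  intro i hi j hj h
  simp only [coe_range, Set.mem_Iio] at hi hj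
  exact hg.2 i j (by omega) (by omega) h

/-- the rows with triple points -/
lemma supp_card : ((univ : Finset F).filter (fun y => y ≠ 0 ∧ wt (AA g n) (BB g n) y ≠ 0)).card ≤
    12 * n := by
  have h : (univ : Finset F).filter (fun y => y ≠ 0 ∧ wt (AA g n) (BB g n) y ≠ 0) ⊆
      (range (12 * n)).image (fun e => g ^ e / g ^ (4 * n)) := by
    intro y hy
    rw [mem_filter] at hy
    obtain ⟨-, hy0, hy⟩ := hy
    unfold wt at hy
    obtain ⟨a, ha⟩ := Finset.card_ne_zero.1 hy
    rw [mem_inter, mem_mulS hy0] at ha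
    obtain ⟨ha1, ha2⟩ := ha
    unfold AA at ha1
    unfold BB at ha2
    rw [mem_image] at ha1 ha2
    obtain ⟨i, hi, rfl⟩ := ha1
    obtain ⟨j, hj, hj2⟩ := ha2
    rw [mem_range] at hi hj
    rw [mem_image]
    refine ⟨2 * i + (4 * n - j), ?_, ?_⟩
    · rw [mem_range]; omega
    · have h1 := hg.1
      rw [eq_div_iff hy0] at hj2
      have h2 : g ^ (4 * n) = g ^ j * g ^ (4 * n - j) := by
        rw [← pow_add]; congr 1; omega
      have h3 : g ^ j ≠ 0 := pow_ne_zero _ h1
      have h4 : g ^ (4 * n - j) ≠ 0 := pow_ne_zero _ h1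
      rw [pow_add, ← hj2, h2]
      field_simp
  exact (card_le_card h).trans (card_image_le.trans (by rw [card_range]))

/-- the row with exactly `l` triple points -/
lemma wt_row {l : ℕ} (hl : l ≤ 2 * n) :
    wt (AA g n) (BB g n) ((g ^ (4 * n - 2 * l))⁻¹) = l := by
  have h1 := hg.1
  have hy0 : (g ^ (4 * n - 2 * l))⁻¹ ≠ 0 := inv_ne_zero (pow_ne_zero _ h1)
  unfold wt
  have h : AA g n ∩ mulS (BB g n) ((g ^ (4 * n - 2 * l))⁻¹) =
      (range l).image (fun i => g ^ (2 * i)) := by
    ext a
    rw [mem_inter, mem_mulS hy0, div_inv_eq_mul, mem_image]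
    constructor
    · rintro ⟨ha1, ha2⟩
      unfold AA at ha1
      unfold BB at ha2
      rw [mem_image] at ha1 ha2
      obtain ⟨i, hi, rfl⟩ := ha1
      obtain ⟨j, hj, hj2⟩ := ha2
      rw [mem_range] at hi hj
      rw [← pow_add] at hj2
      refine ⟨i, ?_, rfl⟩
      rw [mem_range]
      have := hg.2 j (2 * i + (4 * n - 2 * l)) (by omega) (by omega) hj2
      omega
    · rintro ⟨i, hi, rfl⟩
      rw [mem_range] at hi
      constructor
      · unfold AA
        rw [mem_image]
        exact ⟨i, by rw [mem_range]; omega, rfl⟩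
      · unfold BB
        rw [mem_image]
        refine ⟨2 * i + (4 * n - 2 * l), by rw [mem_range]; omega, ?_⟩
        rw [← pow_add]
  rw [h, card_image_of_injOn, card_range]
  intro i hi j hj h
  simp only [coe_range, Set.mem_Iio] at hi hj
  have := hg.2 (2 * i) (2 * j) (by omega) (by omega) h
  omega

/-- rows which together carry a prescribed number of triple points -/
lemma exists_Z (j : ℕ) (h1 : n * (n + 1) ≤ 2 * j) (h2 : 2 * j ≤ n * (n + 1) + 2 * n ^ 2) :
    ∃ Z : Finset F, (0 : F) ∉ Z ∧ Z.card = n ∧ ∑ y ∈ Z, wt (AA g n) (BB g n) y = j := by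
  obtain ⟨Z0, hZ0, hc, hs⟩ := subset_sum (2 * n) n (by omega) j h1 (by
    have : 2 * (2 * n) + 1 - n = 3 * n + 1 := by omega
    rw [this]
    nlinarith)
  refine ⟨Z0.image (fun l => (g ^ (4 * n - 2 * l))⁻¹), ?_, ?_, ?_⟩
  · rw [mem_image]
    rintro ⟨l, -, h⟩
    exact inv_ne_zero (pow_ne_zero _ hg.1) h
  · rw [card_image_of_injOn, hc]
    intro a ha b hb h
    have ha' := hZ0 ha
    have hb' := hZ0 hb
    rw [mem_Icc] at ha' hb'
    simp only [inv_inj] at h
    have := hg.2 _ _ (by omega) (by omega) h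
    omega
  · rw [Finset.sum_image, ← hs]
    · apply Finset.sum_congr rfl
      intro l hl
      have := hZ0 hl
      rw [mem_Icc] at this
      exact wt_row hg this.2
    · intro a ha b hb h
      have ha' := hZ0 ha
      have hb' := hZ0 hb
      rw [mem_Icc] at ha' hb'
      simp only [inv_inj] at h
      have := hg.2 _ _ (by omega) (by omega) h
      omega

/-- the set of rows to be switched -/
lemma exists_T (t j : ℕ) (h1 : n * (n + 1) ≤ 2 * j) (h2 : 2 * j ≤ n * (n + 1) + 2 * n ^ 2)
    (ht1 : 12 * n ≤ t) (ht2 : t + n + 1 ≤ Fintype.card F) :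
    ∃ T Z : Finset F, (0 : F) ∉ T ∧ T.card = t ∧ Z.card = n ∧
      (∀ y, y ≠ 0 → wt (AA g n) (BB g n) y ≠ 0 → y ∉ Z → y ∈ T) ∧
      ∑ y ∈ T, (wt (AA g n) (BB g n) y : ℤ) = 16 * n ^ 2 - j := by
  obtain ⟨Z, hZ0, hZc, hZs⟩ := exists_Z hg j h1 h2
  set U := (univ : Finset F).filter (fun y => y ≠ 0 ∧ wt (AA g n) (BB g n) y ≠ 0) with hU
  have hUc := supp_card hg
  rw [← hU] at hUc
  have hsub : U \ Z ⊆ (insert (0 : F) Z)ᶜ := by
    intro y hy
    rw [mem_sdiff, hU, mem_filter] at hy
    rw [mem_compl, mem_insert, not_or]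
    exact ⟨hy.1.2.1, hy.2⟩
  have hc1 : (U \ Z).card ≤ t := (card_le_card sdiff_subset).trans (hUc.trans ht1)
  have hc2 : t ≤ ((insert (0 : F) Z)ᶜ).card := by
    rw [card_compl, card_insert_of_notMem hZ0, hZc]
    omega
  obtain ⟨T, hT1, hT2, hT3⟩ := Finset.exists_subsuperset_card_eq hsub hc1 hc2
  refine ⟨T, Z, ?_, hT3, hZc, ?_, ?_⟩
  · intro h
    have := hT2 h
    simp at this
  · intro y hy0 hyw hyZ
    apply hT1
    rw [mem_sdiff, hU, mem_filter]
    exact ⟨⟨mem_univ _, hy0, hyw⟩, hyZ⟩
  · have hdisj : Disjoint T Z := by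
      rw [Finset.disjoint_left]
      intro y hy hyZ
      have := hT2 hy
      rw [mem_compl, mem_insert, not_or] at this
      exact this.2 hyZ
    have h3 : ∑ y ∈ T ∪ Z, wt (AA g n) (BB g n) y =
        ∑ y ∈ univ.filter (fun y : F => y ≠ 0), wt (AA g n) (BB g n) y := by
      apply Finset.sum_subset
      · intro y hy
        rw [mem_union] at hy
        rw [mem_filter]
        refine ⟨mem_univ _, ?_⟩
        rintro rfl
        rcases hy with hy | hy
        · have := hT2 hy
          simp at this
        · exact hZ0 hy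
      · intro y hy hy'
        rw [mem_filter] at hy
        by_contra hne
        apply hy'
        rw [mem_union]
        by_cases hyZ : y ∈ Z
        · exact Or.inr hyZ
        · left
          apply hT1
          rw [mem_sdiff, hU, mem_filter]
          exact ⟨⟨mem_univ _, hy.2, hne⟩, hyZ⟩
    rw [sum_wt _ _ (zero_notMem_AA hg) (zero_notMem_BB hg), card_AA hg, card_BB hg,
      Finset.sum_union hdisj, hZs] at h3
    have h4 : (∑ y ∈ T, (wt (AA g n) (BB g n) y : ℤ)) + j = (4 * n) * (4 * n) := by
      exact_mod_cast h3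
    nlinarith

end

end Pool.Agent.H598R3
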