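import Pool.Agent.H598R3.AvMid
import Pool.Agent.H598R3.AvArith

/-!
All sizes occur.
-/

set_option autoImplicit false
set_option linter.unusedSectionVars false

namespace Pool.Agent.H598R3

open Finset

variable {F : Type*} [Field F] [Fintype F] [DecidableEq F]

lemma par_ne {π t k : ℕ} (h : (π + t) % 2 ≠ k % 2) : (π : ZMod 2) + (t : ZMod 2) ≠ (k : ZMod 2) := by
  intro h1
  apply h
  have h2 : ((π + t : ℕ) : ZMod 2) = (k : ZMod 2) := by push_cast; exact h1
  exact (ZMod.natCast_eq_natCast_iff' _ _ _).1 h2

/-- sizes in the middle, when all lines off the centre meet the base set in the same parity -/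
lemma mid_gen {g : F} {n k m : ℕ} (hg : Inj g (12 * n)) (K : Option F → Finset F) (e π d : ℕ)
    (ρ : ℤ) (he : e ≤ 1) (hd : d ≤ 1)
    (hKc : ∀ r, (K r).card = (K0 (AA g n) (BB g n) r).card + e)
    (hp : ∀ u v : F, (((univ : Finset (Option F)).filter (fun r => pos u v r ∈ K r)).card : ZMod 2)
      = (π : ZMod 2) ∨ (∀ T Z : Finset F, (0 : F) ∉ T → Z.card = n →
        (∀ y, y ≠ 0 → wt (AA g n) (BB g n) y ≠ 0 → y ∉ Z → y ∈ T) →
        (Fintype.card F : ℤ) + 2 * n - T.card ≤ ((univ : Finset (Option F)).filter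
          (fun r => pos u v r ∈ sw K T r)).card))
    (hq : Fintype.card F ≤ n ^ 2) (hk1 : 20 * n + 5 ≤ k) (hk2 : 2 * k ≤ Fintype.card F + 1)
    (hn : 10 ≤ n) (hm1 : k * Fintype.card F ≤ m + 3 * Fintype.card F)
    (hm2 : m ≤ (k + 3) * Fintype.card F)
    (hcong : ∀ t : ℤ, t % 4 = ρ % 4 → (8 * n * (Fintype.card F : ℤ) + 32 * n ^ 2 +
      e * (Fintype.card F + 1) + t * (Fintype.card F - 16 * n - 2 * e) - (m - d)) % 4 = 0)
    (hpar : ∀ t : ℕ, (t : ℤ) % 4 = ρ % 4 → (π + t) % 2 ≠ k % 2) : Sz F k m := by
  classical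
  obtain ⟨t, j, ht1, ht2, ht3, hj1, hj2, hsum⟩ := select (Fintype.card F) n k m e d ρ hq hk1 hk2 hn
    he hd hm1 hm2 hcong
  obtain ⟨T, Z, hT0, hTc, hZc, hTZ, hw⟩ := exists_T hg t j hj1 hj2 ht2 (by omega)
  refine ⟨mk (sw K T) (decide (d = 1)), ?_, ?_, ?_⟩
  · have h := size_formula hg K e hKc T hT0 j hw (decide (d = 1))
    rw [hTc] at h
    have h2 : (if (decide (d = 1)) = true then (1 : ℤ) else 0) = d := by
      interval_cases d <;> simp
    rw [h2, hsum] at h
    exact_mod_cast h
  · intro r
    apply row_ok K T _ r k (8 * n + 1)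
    · intro r
      rw [hKc]
      have := card_K0_le (AA g n) (BB g n) r
      rw [card_AA hg, card_BB hg] at this
      omega
    · omega
    · omega
  · intro u v
    rcases hp u v with h | h
    · refine line_ok K T _ u v k (π : ZMod 2) h ?_
      rw [hTc]
      exact par_ne (hpar t ht1)
    · rw [card_lin']
      have h1 := h T Z hT0 hZc hTZ
      rw [hTc] at h1
      intro h2
      rw [h2] at h1
      have : (t : ℤ) + k < Fintype.card F + 2 * n := by exact_mod_cast ht3
      linarith

lemma mid_odd {g : F} {n k m : ℕ} (hg : Inj g (12 * n)) (hodd : Fintype.card F % 2 = 1)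
    (hq : Fintype.card F ≤ n ^ 2) (hk1 : 20 * n + 5 ≤ k) (hk2 : 2 * k ≤ Fintype.card F + 1)
    (hn : 10 ≤ n) (hm1 : k * Fintype.card F ≤ m + 3 * Fintype.card F)
    (hm2 : m ≤ (k + 3) * Fintype.card F) : Sz F k m := by
  have hA := zero_notMem_AA hg
  have hB := zero_notMem_BB hg
  have hAe : ((AA g n).card : ZMod 2) = 0 := by
    rw [card_AA hg]
    have : (4 * n : ℕ) = 2 * (2 * n) := by ring
    rw [this, Nat.cast_mul]
    have : ((2 : ℕ) : ZMod 2) = 0 := by decide
    rw [this, zero_mul]
  have hBe : ((BB g n).card : ZMod 2) = 0 := by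
    rw [card_BB hg]
    have : (4 * n : ℕ) = 2 * (2 * n) := by ring
    rw [this, Nat.cast_mul]
    have : ((2 : ℕ) : ZMod 2) = 0 := by decide
    rw [this, zero_mul]
  refine mid_gen hg (K0 (AA g n) (BB g n)) 0 0 ((m + k + 1) % 2)
    (((m : ℤ) - ((m + k + 1) % 2 : ℕ)) * Fintype.card F) (by norm_num) (by omega)
    (fun r => rfl) ?_ hq hk1 hk2 hn hm1 hm2 ?_ ?_
  · intro u v
    have hb := base_parity (AA g n) (BB g n) hAe hBe u v
    by_cases h1 : u = 0 ∧ v ∈ AA g n
    · right
      intro T Z hT0 hZ hTZ
      rw [h1.1]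
      exact exc_A hg T Z hT0 hZ hTZ v h1.2
    by_cases h2 : v = 0 ∧ u ∈ BB g n
    · right
      intro T Z hT0 hZ hTZ
      rw [h2.1]
      exact exc_B hg T Z hT0 hZ hTZ u h2.2
    left
    rw [hb]
    have e1 : (if u = 0 then (Fintype.card F : ZMod 2) * ind (AA g n) v else 0) = 0 := by
      split_ifs with h3
      · have : v ∉ AA g n := fun h4 => h1 ⟨h3, h4⟩
        simp [ind, this]
      · rfl
    have e2 : (if v = 0 then (Fintype.card F : ZMod 2) * ind (BB g n) u else 0) = 0 := by
      split_ifs with h3
      · have : u ∉ BB g n := fun h4 => h2 ⟨h3, h4⟩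
        simp [ind, this]
      · rfl
    rw [e1, e2]
    simp
  · intro t ht
    obtain ⟨a, ha⟩ : ∃ a : ℤ, (Fintype.card F : ℤ) = 2 * a + 1 :=
      ⟨(Fintype.card F : ℤ) / 2, by omega⟩
    set w : ℤ := (m : ℤ) - ((m + k + 1) % 2 : ℕ) with hw
    obtain ⟨c, hc⟩ : ∃ c : ℤ, t = w * Fintype.card F + 4 * c :=
      ⟨(t - w * Fintype.card F) / 4, by omega⟩
    obtain ⟨b, hb⟩ : ∃ b : ℤ, a * (a + 1) = 2 * b := by
      obtain ⟨b, hb⟩ := Int.even_mul_succ_self a
      exact ⟨b, by rw [hb]; ring⟩
    have h1 : (8 * n * (Fintype.card F : ℤ) + 32 * n ^ 2 + ((0 : ℕ) : ℤ) * (Fintype.card F + 1) +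
        t * (Fintype.card F - 16 * n - 2 * ((0 : ℕ) : ℤ)) - w) =
        4 * (2 * n * (Fintype.card F : ℤ) + 8 * n ^ 2 - 4 * n * t + c * Fintype.card F +
          2 * w * b) := by
      rw [hc, ha]
      have : w * (2 * a + 1) * (2 * a + 1) = w * (4 * (a * (a + 1)) + 1) := by ring
      have h2 : w * (2 * a + 1) * (2 * a + 1) = 8 * w * b + w := by rw [this, hb]; ring
      push_cast
      linear_combination h2
    rw [h1]
    omega
  · intro t ht
    set w : ℤ := (m : ℤ) - ((m + k + 1) % 2 : ℕ) with hw
    have h1 : ((t : ℤ)) % 2 = (w * Fintype.card F) % 2 := by omega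
    obtain ⟨a, ha⟩ : ∃ a : ℤ, (Fintype.card F : ℤ) = 2 * a + 1 :=
      ⟨(Fintype.card F : ℤ) / 2, by omega⟩
    have h2 : (w * Fintype.card F) % 2 = w % 2 := by
      rw [ha]
      have : w * (2 * a + 1) = w + 2 * (w * a) := by ring
      rw [this]
      omega
    rw [h2] at h1
    omega

/-- adding one point in each row -/
def insF (K : Option F → Finset F) (f : Option F → F) : Option F → Finset F :=
  fun r => insert (f r) (K r)

lemma insF_count (K : Option F → Finset F) (f : Option F → F) (hf : ∀ r, f r ∉ K r)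
    (x : Option F → F) :
    (((univ : Finset (Option F)).filter (fun r => x r ∈ insF K f r)).card) =
      ((univ : Finset (Option F)).filter (fun r => x r ∈ K r)).card +
      ((univ : Finset (Option F)).filter (fun r => x r = f r)).card := by
  rw [← card_union_of_disjoint]
  · congr 1
    ext r
    simp only [insF, mem_filter, mem_union, mem_insert]
    tauto
  · rw [Finset.disjoint_left]
    intro r hr hr'
    rw [mem_filter] at hr hr'
    rw [hr'.2] at hr
    exact hf r hr.2

lemma card_insF (K : Option F → Finset F) (f : Option F → F) (hf : ∀ r, f r ∉ K r) (r : Option F) :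
    (insF K f r).card = (K r).card + 1 := by
  unfold insF
  rw [card_insert_of_notMem (hf r)]

/-- the line `(0,0)` meets every line in an odd number of points, when the order is even -/
lemma count_zero (hev : (Fintype.card F : ZMod 2) = 0) (u v : F) :
    (((univ : Finset (Option F)).filter (fun r => pos u v r = 0)).card : ZMod 2) = 1 := by
  by_cases hu : u = 0
  · by_cases hv : v = 0
    · have : (univ : Finset (Option F)).filter (fun r => pos u v r = 0) = univ := by
        ext r
        cases r <;> simp [pos, hu, hv]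
      rw [this, card_univ, Fintype.card_option]
      push_cast
      rw [hev, zero_add]
    · have : (univ : Finset (Option F)).filter (fun r => pos u v r = 0) = {none} := by
        ext r
        cases r <;> simp [pos, hu, hv]
      rw [this]; simp
  · have : (univ : Finset (Option F)).filter (fun r => pos u v r = 0) = {some (-v / u)} := by
      ext r
      cases r with
      | none => simp [pos, hu]
      | some y =>
        simp only [pos, mem_filter, mem_univ, true_and, mem_singleton, Option.some.injEq]
        constructor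
        · intro h
          rw [eq_div_iff hu]
          linear_combination h
        · intro h
          rw [h]
          field_simp
          ring
    rw [this]; simp

/-- the parabola -/
def par : Option F → F
  | none => 0
  | some y => y ^ 2

lemma count_par [CharP F 2] (u v : F) :
    (((univ : Finset (Option F)).filter (fun r => pos u v r = par r)).card : ZMod 2) = 0 := by
  rw [card_filter]
  push_cast
  rw [Fintype.sum_option]
  simp only [pos, par]
  by_cases hu : u = 0
  · subst hu
    simp only [if_true, zero_mul, zero_add]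
    have h1 : ∑ y : F, (if v = y ^ 2 then (1 : ZMod 2) else 0) = 1 := by
      have hb : Function.Bijective (fun y : F => y ^ 2) := by
        rw [Fintype.bijective_iff_injective_and_card]
        refine ⟨?_, rfl⟩
        intro a b hab
        simp only at hab
        have h2 : (a - b) ^ 2 = 0 := by
          rw [sub_sq, hab]
          have : (2 : F) = 0 := CharTwo.two_eq_zero
          linear_combination (b ^ 2 - a * b) * this
        exact sub_eq_zero.1 (pow_eq_zero_iff (two_ne_zero) |>.1 h2)
      obtain ⟨y0, hy0⟩ := hb.2 v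
      rw [Finset.sum_eq_single y0]
      · simp only at hy0
        rw [if_pos hy0.symm]
      · intro y _ hy
        rw [if_neg]
        intro h
        apply hy
        apply hb.1
        simp only at hy0 ⊢
        rw [hy0, h]
      · intro h; exact absurd (mem_univ _) h
    rw [h1]
    decide
  · rw [if_neg hu, zero_add]
    apply Finset.sum_involution (fun y _ => y + u)
    · intro y _
      have h1 : (u * y + v = y ^ 2) ↔ (u * (y + u) + v = (y + u) ^ 2) := by
        have : (2 : F) = 0 := CharTwo.two_eq_zero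
        constructor
        · intro h; linear_combination h - u * y * this
        · intro h; linear_combination h + u * y * this
      by_cases h2 : u * y + v = y ^ 2
      · rw [if_pos h2, if_pos (h1.1 h2)]; decide
      · rw [if_neg h2, if_neg (fun h => h2 (h1.2 h))]; decide
    · intro y _ _
      simpa using hu
    · intro y _; exact mem_univ _
    · intro y _
      have : (2 : F) = 0 := CharTwo.two_eq_zero
      linear_combination u * this

lemma par_notMem [CharP F 2] {g : F} {n : ℕ} (hg : Inj g (12 * n)) (r : Option F) :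
    par r ∉ K0 (AA g n) (BB g n) r := by
  cases r with
  | none => exact zero_notMem_BB hg
  | some y =>
    simp only [par, K0]
    by_cases hy : y = 0
    · subst hy
      simp only [if_true]
      have : (0 : F) ^ 2 = 0 := by ring
      rw [this]
      exact zero_notMem_AA hg
    · rw [if_neg hy, Finset.mem_symmDiff, mem_mulS hy]
      have h1 : y ^ 2 / y = y := by field_simp
      rw [h1]
      have h2 : y ^ 2 ∈ AA g n ↔ y ∈ BB g n := by
        unfold AA BB
        rw [mem_image, mem_image]
        constructor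
        · rintro ⟨i, hi, h⟩
          refine ⟨i, hi, ?_⟩
          have h3 : (g ^ i - y) ^ 2 = 0 := by
            have : (2 : F) = 0 := CharTwo.two_eq_zero
            have h4 : (g ^ i) ^ 2 = y ^ 2 := by rw [← h, ← pow_mul, mul_comm]
            rw [sub_sq, h4]
            linear_combination (y ^ 2 - g ^ i * y) * this
          exact sub_eq_zero.1 (pow_eq_zero_iff (two_ne_zero) |>.1 h3)
        · rintro ⟨i, hi, rfl⟩
          exact ⟨i, hi, by rw [← pow_mul, mul_comm]⟩
      tauto

lemma zero_notMem_K0 {g : F} {n : ℕ} (hg : Inj g (12 * n)) (r : Option F) :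
    (0 : F) ∉ K0 (AA g n) (BB g n) r := by
  cases r with
  | none => exact zero_notMem_BB hg
  | some y =>
    simp only [K0]
    by_cases hy : y = 0
    · rw [if_pos hy]
      exact zero_notMem_AA hg
    · rw [if_neg hy, Finset.mem_symmDiff, mem_mulS hy, zero_div]
      have h1 := zero_notMem_AA hg
      have h2 := zero_notMem_BB hg
      tauto

lemma mid_even [CharP F 2] {g : F} {n k m : ℕ} (hg : Inj g (12 * n))
    (h4 : Fintype.card F % 4 = 0)
    (hq : Fintype.card F ≤ n ^ 2) (hk1 : 20 * n + 5 ≤ k) (hk2 : 2 * k ≤ Fintype.card F + 1)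
    (hn : 10 ≤ n) (hm1 : k * Fintype.card F ≤ m + 3 * Fintype.card F)
    (hm2 : m ≤ (k + 3) * Fintype.card F) : Sz F k m := by
  have hev : (Fintype.card F : ZMod 2) = 0 := by
    have : Fintype.card F = 2 * (Fintype.card F / 2) := by omega
    rw [this, Nat.cast_mul]
    have : ((2 : ℕ) : ZMod 2) = 0 := by decide
    rw [this, zero_mul]
  have hAe : ((AA g n).card : ZMod 2) = 0 := by
    rw [card_AA hg]
    have : (4 * n : ℕ) = 2 * (2 * n) := by ring
    rw [this, Nat.cast_mul]
    have : ((2 : ℕ) : ZMod 2) = 0 := by decide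
    rw [this, zero_mul]
  have hBe : ((BB g n).card : ZMod 2) = 0 := by
    rw [card_BB hg]
    have : (4 * n : ℕ) = 2 * (2 * n) := by ring
    rw [this, Nat.cast_mul]
    have : ((2 : ℕ) : ZMod 2) = 0 := by decide
    rw [this, zero_mul]
  have hbase : ∀ u v : F, (((univ : Finset (Option F)).filter
      (fun r => pos u v r ∈ K0 (AA g n) (BB g n) r)).card : ZMod 2) = 0 := by
    intro u v
    rw [base_parity (AA g n) (BB g n) hAe hBe u v, hev]
    simp
  obtain ⟨a, ha⟩ : ∃ a : ℤ, (Fintype.card F : ℤ) = 4 * a :=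
    ⟨(Fintype.card F : ℤ) / 4, by omega⟩
  -- three types of base sets
  have type0 : ∀ (d : ℕ) (ρ : ℤ), d ≤ 1 → ((m : ℤ) - d) % 4 = 0 → (ρ - k - 1) % 2 = 0 →
      Sz F k m := by
    intro d ρ hd h1 h2
    refine mid_gen hg (K0 (AA g n) (BB g n)) 0 0 d ρ (by norm_num) hd (fun r => rfl) ?_ hq hk1 hk2
      hn hm1 hm2 ?_ ?_
    · intro u v
      left
      rw [hbase u v]; simp
    · intro t ht
      have h3 : (8 * n * (Fintype.card F : ℤ) + 32 * n ^ 2 + ((0 : ℕ) : ℤ) * (Fintype.card F + 1) +
          t * (Fintype.card F - 16 * n - 2 * ((0 : ℕ) : ℤ)) - (m - d)) =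
          4 * (2 * n * (Fintype.card F : ℤ) + 8 * n ^ 2 + t * a - 4 * n * t) - (m - d) := by
        rw [ha]; push_cast; ring
      rw [h3]
      omega
    · intro t ht
      omega
  have type1 : ∀ (π d : ℕ) (ρ : ℤ) (f : Option F → F), (∀ r, f r ∉ K0 (AA g n) (BB g n) r) →
      (∀ u v : F, (((univ : Finset (Option F)).filter (fun r => pos u v r = f r)).card : ZMod 2) =
        (π : ZMod 2)) → d ≤ 1 → (1 - 2 * ρ - ((m : ℤ) - d)) % 4 = 0 → (π + ρ - k - 1) % 2 = 0 →
      Sz F k m := by
    intro π d ρ f hf hfc hd h1 h2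
    refine mid_gen hg (insF (K0 (AA g n) (BB g n)) f) 1 π d ρ (by norm_num) hd
      (fun r => card_insF _ f hf r) ?_ hq hk1 hk2 hn hm1 hm2 ?_ ?_
    · intro u v
      left
      rw [insF_count _ f hf]
      push_cast
      rw [hbase u v, hfc u v, zero_add]
    · intro t ht
      have h3 : (8 * n * (Fintype.card F : ℤ) + 32 * n ^ 2 + ((1 : ℕ) : ℤ) * (Fintype.card F + 1) +
          t * (Fintype.card F - 16 * n - 2 * ((1 : ℕ) : ℤ)) - (m - d)) =
          4 * (2 * n * (Fintype.card F : ℤ) + 8 * n ^ 2 + a + t * a - 4 * n * t) +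
          (1 - 2 * t - (m - d)) := by
        rw [ha]; push_cast; ring
      rw [h3]
      omega
    · intro t ht
      omega
  have hz0 := zero_notMem_K0 hg
  have hz1 : ∀ u v : F, (((univ : Finset (Option F)).filter
      (fun r => pos u v r = 0)).card : ZMod 2) = ((1 : ℕ) : ZMod 2) := by
    intro u v
    rw [count_zero hev u v]; simp
  have hp0 : ∀ r : Option F, par r ∉ K0 (AA g n) (BB g n) r := par_notMem hg
  have hp1 : ∀ u v : F, (((univ : Finset (Option F)).filter
      (fun r => pos u v r = par r)).card : ZMod 2) = ((0 : ℕ) : ZMod 2) := by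
    intro u v
    rw [count_par u v]; simp
  have hkm : (k % 2 = 1 ∨ k % 2 = 0) := by omega
  have hmm : m % 4 = 0 ∨ m % 4 = 1 ∨ m % 4 = 2 ∨ m % 4 = 3 := by omega
  rcases hkm with hk | hk
  · rcases hmm with hm | hm | hm | hm
    · exact type0 0 0 (by norm_num) (by omega) (by omega)
    · exact type0 1 0 (by norm_num) (by omega) (by omega)
    · exact type1 0 1 0 par hp0 hp1 (by norm_num) (by omega) (by omega)
    · exact type1 1 0 1 (fun _ => 0) hz0 hz1 (by norm_num) (by omega) (by omega)
  · rcases hmm with hm | hm | hm | hm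
    · exact type0 0 1 (by norm_num) (by omega) (by omega)
    · exact type0 1 1 (by norm_num) (by omega) (by omega)
    · exact type1 1 1 0 (fun _ => 0) hz0 hz1 (by norm_num) (by omega) (by omega)
    · exact type1 0 0 1 par hp0 hp1 (by norm_num) (by omega) (by omega)

end Pool.Agent.H598R3
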