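import Pool.Agent.H598R3.AvCyc

/-!
Switching the base set in many lines through the centre.
-/

set_option autoImplicit false
set_option linter.unusedSectionVars false

namespace Pool.Agent.H598R3

open Finset

variable {F : Type*} [Field F] [Fintype F] [DecidableEq F]

/-- switch the family `K` in the rows `some y`, `y ∈ T` -/
def sw (K : Option F → Finset F) (T : Finset F) : Option F → Finset F :=
  fun r => if r ∈ T.image some then (K r)ᶜ else K r

lemma card_sw (K : Option F → Finset F) (T : Finset F) (d : Bool) :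
    ((mk (sw K T) d).card : ℤ) = (∑ r, ((K r).card : ℤ)) +
      ∑ y ∈ T, ((Fintype.card F : ℤ) - 2 * (K (some y)).card) + (if d then 1 else 0) := by
  rw [card_mk]
  push_cast
  congr 1
  have h := card_switch K (T.image some)
  rw [Finset.sum_image (by intro a _ b _ h; exact Option.some_injective _ h)] at h
  exact h

lemma card_image_some (T : Finset F) : (T.image some).card = T.card :=
  card_image_of_injective _ (Option.some_injective _)

/-- lines whose intersection with the base set has the right parity are fine -/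
lemma line_ok (K : Option F → Finset F) (T : Finset F) (d : Bool) (u v : F) (k : ℕ) (p : ZMod 2)
    (h : (((univ : Finset (Option F)).filter (fun r => pos u v r ∈ K r)).card : ZMod 2) = p)
    (hk : p + (T.card : ZMod 2) ≠ (k : ZMod 2)) [DecidablePred (OnLin u v)] :
    ((mk (sw K T) d).filter (OnLin u v)).card ≠ k := by
  rw [card_lin']
  intro h1
  apply hk
  have h2 := parity_switch K (T.image some) (pos u v)
  rw [h, card_image_some] at h2
  rw [← h2, ← h1]
  rfl

/-- the lines through the centre are fine -/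
lemma row_ok (K : Option F → Finset F) (T : Finset F) (d : Bool) (r : Option F) (k M : ℕ)
    (hK : ∀ r, (K r).card ≤ M) (h1 : M + 2 ≤ k) (h2 : k + M + 1 ≤ Fintype.card F)
    [DecidablePred (OnRow r)] :
    ((mk (sw K T) d).filter (OnRow r)).card ≠ k := by
  have h := card_row (sw K T) d r
  have h0 : ((mk (sw K T) d).filter (OnRow r)).card =
      (@filter _ (OnRow r) (fun a => Classical.propDecidable _) (mk (sw K T) d)).card := by
    congr
  rw [h0]
  refine fun h3 => ?_
  have h4 := h.symm.trans h3
  have h5 := hK r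
  have h6 : (if d then 1 else 0) ≤ 1 := by cases d <;> simp
  unfold sw at h4
  split_ifs at h4 with h7 h8
  · rw [card_compl] at h4
    omega
  · rw [card_compl] at h4
    omega
  · omega
  · omega

lemma card_K0_le (A B : Finset F) (r : Option F) :
    (K0 A B r).card ≤ A.card + B.card := by
  cases r with
  | none => simp only [K0]; omega
  | some y =>
    by_cases hy : y = 0
    · simp only [K0, hy, if_true]; omega
    · have h := card_K0_some (A := A) (B := B) hy
      omega

section

variable {g : F} {n : ℕ} (hg : Inj g (12 * n))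
include hg

/-- the number of points -/
lemma size_formula (K : Option F → Finset F) (e : ℕ)
    (hK : ∀ r, (K r).card = (K0 (AA g n) (BB g n) r).card + e)
    (T : Finset F) (hT0 : (0 : F) ∉ T) (j : ℤ)
    (hw : ∑ y ∈ T, (wt (AA g n) (BB g n) y : ℤ) = 16 * n ^ 2 - j) (d : Bool) :
    ((mk (sw K T) d).card : ℤ) = 8 * n * Fintype.card F + 32 * n ^ 2 +
      e * (Fintype.card F + 1) + T.card * (Fintype.card F - 16 * n - 2 * e) - 4 * j +
      (if d then 1 else 0) := by
  rw [card_sw]
  have h1 : ∑ r, ((K r).card : ℤ) =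
      ∑ r, ((K0 (AA g n) (BB g n) r).card : ℤ) + (Fintype.card F + 1) * e := by
    have h2 : ∀ r : Option F, ((K r).card : ℤ) = (K0 (AA g n) (BB g n) r).card + e := by
      intro r; rw [hK r]; push_cast; rfl
    rw [Finset.sum_congr rfl (fun r _ => h2 r), Finset.sum_add_distrib, Finset.sum_const,
      card_univ, Fintype.card_option, nsmul_eq_mul]
    push_cast
    ring
  have h3 : ∑ y ∈ T, ((Fintype.card F : ℤ) - 2 * (K (some y)).card) =
      T.card * (Fintype.card F - 16 * n - 2 * e) + 4 * (16 * n ^ 2 - j) := by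
    have h4 : ∀ y ∈ T, ((Fintype.card F : ℤ) - 2 * (K (some y)).card) =
        (Fintype.card F - 16 * n - 2 * e) + 4 * wt (AA g n) (BB g n) y := by
      intro y hy
      have hy0 : y ≠ 0 := fun h => hT0 (h ▸ hy)
      rw [hK (some y)]
      push_cast
      rw [card_K0_some hy0, card_AA hg, card_BB hg]
      push_cast
      ring
    rw [Finset.sum_congr rfl h4, Finset.sum_add_distrib, Finset.sum_const, nsmul_eq_mul,
      ← Finset.mul_sum, hw]
  rw [h1, h3, sum_card_K0 _ _ (zero_notMem_AA hg) (zero_notMem_BB hg), card_AA hg, card_BB hg]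
  push_cast
  ring

lemma exc_count (T Y : Finset F) (hT0 : (0 : F) ∉ T) (hY0 : (0 : F) ∉ Y) :
    ((univ.filter (fun y : F => y ≠ 0 ∧ (y ∈ Y ↔ y ∈ T))).card : ℤ) =
      Fintype.card F - 1 - Y.card - T.card + 2 * (Y ∩ T).card := by
  have h1 := card_symmDiff' Y T
  have h2 : (univ.filter (fun y : F => y ≠ 0 ∧ (y ∈ Y ↔ y ∈ T))) =
      (insert (0 : F) (symmDiff Y T))ᶜ := by
    ext y
    rw [mem_filter, mem_compl, mem_insert, not_or, Finset.mem_symmDiff]
    constructor
    · rintro ⟨-, h3, h4⟩
      refine ⟨h3, ?_⟩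
      tauto
    · rintro ⟨h3, h4⟩
      refine ⟨mem_univ _, h3, ?_⟩
      tauto
  have h0 : (0 : F) ∉ symmDiff Y T := by
    rw [Finset.mem_symmDiff]; tauto
  rw [h2, card_compl, card_insert_of_notMem h0]
  have h3 : (symmDiff Y T).card + 1 ≤ Fintype.card F := by
    rw [← card_insert_of_notMem h0]
    exact card_le_univ _
  rw [Nat.cast_sub h3]
  push_cast
  rw [h1]
  ring

/-- the exceptional lines have many points -/
lemma exc_A (T Z : Finset F) (hT0 : (0 : F) ∉ T) (hZ : Z.card = n)
    (hTZ : ∀ y, y ≠ 0 → wt (AA g n) (BB g n) y ≠ 0 → y ∉ Z → y ∈ T) (v : F) (hv : v ∈ AA g n) :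
    (Fintype.card F : ℤ) + 2 * n - T.card ≤ ((univ : Finset (Option F)).filter
      (fun r => pos 0 v r ∈ sw (K0 (AA g n) (BB g n)) T r)).card := by
  have hv0 : v ≠ 0 := fun h => zero_notMem_AA hg (h ▸ hv)
  set Y : Finset F := (BB g n).image (fun b => v / b) with hY
  have hYc : Y.card = 4 * n := by
    rw [hY, card_image_of_injOn, card_BB hg]
    intro b hb b' hb' h
    have hb0 : b ≠ 0 := fun h => zero_notMem_BB hg (h ▸ hb)
    have hb0' : b' ≠ 0 := fun h => zero_notMem_BB hg (h ▸ hb')
    simp only at h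
    rw [div_eq_div_iff hb0 hb0'] at h
    exact (mul_left_cancel₀ hv0 h).symm
  have hY0 : (0 : F) ∉ Y := by
    rw [hY, mem_image]
    rintro ⟨b, hb, h⟩
    have hb0 : b ≠ 0 := fun h => zero_notMem_BB hg (h ▸ hb)
    exact div_ne_zero hv0 hb0 h
  have hmemY : ∀ y, y ≠ 0 → (y ∈ Y ↔ v ∈ mulS (BB g n) y) := by
    intro y hy
    rw [mem_mulS hy, hY, mem_image]
    constructor
    · rintro ⟨b, hb, rfl⟩
      have hb0 : b ≠ 0 := fun h => zero_notMem_BB hg (h ▸ hb)
      have : v / (v / b) = b := by field_simp
      rwa [this]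
    · intro h
      exact ⟨v / y, h, by field_simp⟩
  have h1 := exc_count hg T Y hT0 hY0
  have h2 : Y \ T ⊆ Z := by
    intro y hy
    rw [mem_sdiff] at hy
    have hy0 : y ≠ 0 := fun h => hY0 (h ▸ hy.1)
    by_contra hyZ
    apply hy.2
    refine hTZ y hy0 ?_ hyZ
    unfold wt
    rw [Finset.card_ne_zero]
    exact ⟨v, mem_inter.2 ⟨hv, (hmemY y hy0).1 hy.1⟩⟩
  have h3 := Finset.card_sdiff_add_card_inter Y T
  have h4 := card_le_card h2
  have h5 : (univ.filter (fun y : F => y ≠ 0 ∧ (y ∈ Y ↔ y ∈ T))).card + 1 ≤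
      ((univ : Finset (Option F)).filter
        (fun r => pos 0 v r ∈ sw (K0 (AA g n) (BB g n)) T r)).card := by
    have h6 : insert (some (0 : F)) ((univ.filter (fun y : F => y ≠ 0 ∧ (y ∈ Y ↔ y ∈ T))).image
        some) ⊆ (univ : Finset (Option F)).filter
        (fun r => pos 0 v r ∈ sw (K0 (AA g n) (BB g n)) T r) := by
      intro r hr
      rw [mem_insert, mem_image] at hr
      rw [mem_filter]
      refine ⟨mem_univ _, ?_⟩
      rcases hr with rfl | ⟨y, hy, rfl⟩
      · have : some (0 : F) ∉ T.image some := by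
          rw [mem_image]
          rintro ⟨y, hy, h⟩
          rw [Option.some_injective _ h] at hy
          exact hT0 hy
        simp only [sw, if_neg this, pos, K0, mul_zero, zero_add, if_true]
        exact hv
      · rw [mem_filter] at hy
        obtain ⟨-, hy0, hyY⟩ := hy
        have e1 : pos 0 v (some y) = v := by simp [pos]
        have e2 : (some y ∈ T.image some) ↔ y ∈ T := by simp
        have e3 : v ∈ K0 (AA g n) (BB g n) (some y) ↔ v ∉ mulS (BB g n) y := by
          simp only [K0, if_neg hy0, Finset.mem_symmDiff]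
          tauto
        rw [e1]
        unfold sw
        rw [hmemY y hy0] at hyY
        by_cases hyT : y ∈ T
        · rw [if_pos (e2.2 hyT), mem_compl, e3]
          tauto
        · rw [if_neg (fun h => hyT (e2.1 h)), e3]
          tauto
    have h7 := card_le_card h6
    rw [card_insert_of_notMem, card_image_of_injective _ (Option.some_injective _)] at h7
    · exact h7
    · rw [mem_image]
      rintro ⟨y, hy, h⟩
      rw [mem_filter] at hy
      exact hy.2.1 (Option.some_injective _ h)
  rw [hYc] at h1 h3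
  push_cast at h1
  have h8 : ((univ.filter (fun y : F => y ≠ 0 ∧ (y ∈ Y ↔ y ∈ T))).card : ℤ) + 1 ≤
      ((univ : Finset (Option F)).filter
        (fun r => pos 0 v r ∈ sw (K0 (AA g n) (BB g n)) T r)).card := by exact_mod_cast h5
  have h9 : 3 * (n : ℤ) ≤ (Y ∩ T).card := by
    have : 3 * n ≤ (Y ∩ T).card := by omega
    exact_mod_cast this
  linarith

lemma exc_B (T Z : Finset F) (hT0 : (0 : F) ∉ T) (hZ : Z.card = n)
    (hTZ : ∀ y, y ≠ 0 → wt (AA g n) (BB g n) y ≠ 0 → y ∉ Z → y ∈ T) (u : F) (hu : u ∈ BB g n) :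
    (Fintype.card F : ℤ) + 2 * n - T.card ≤ ((univ : Finset (Option F)).filter
      (fun r => pos u 0 r ∈ sw (K0 (AA g n) (BB g n)) T r)).card := by
  have hu0 : u ≠ 0 := fun h => zero_notMem_BB hg (h ▸ hu)
  set Y : Finset F := (AA g n).image (fun a => a / u) with hY
  have hYc : Y.card = 4 * n := by
    rw [hY, card_image_of_injOn, card_AA hg]
    intro b hb b' hb' h
    simp only at h
    rw [div_left_inj' hu0] at h
    exact h
  have hY0 : (0 : F) ∉ Y := by
    rw [hY, mem_image]
    rintro ⟨b, hb, h⟩
    have hb0 : b ≠ 0 := fun h => zero_notMem_AA hg (h ▸ hb)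
    exact div_ne_zero hb0 hu0 h
  have hmemY : ∀ y, (y ∈ Y ↔ u * y ∈ AA g n) := by
    intro y
    rw [hY, mem_image]
    constructor
    · rintro ⟨b, hb, rfl⟩
      rwa [mul_div_cancel₀ _ hu0]
    · intro h
      exact ⟨u * y, h, by field_simp⟩
  have h1 := exc_count hg T Y hT0 hY0
  have h2 : Y \ T ⊆ Z := by
    intro y hy
    rw [mem_sdiff] at hy
    have hy0 : y ≠ 0 := fun h => hY0 (h ▸ hy.1)
    by_contra hyZ
    apply hy.2
    refine hTZ y hy0 ?_ hyZ
    unfold wt
    rw [Finset.card_ne_zero]
    refine ⟨u * y, mem_inter.2 ⟨(hmemY y).1 hy.1, ?_⟩⟩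
    rw [mem_mulS hy0, mul_div_cancel_right₀ _ hy0]
    exact hu
  have h3 := Finset.card_sdiff_add_card_inter Y T
  have h4 := card_le_card h2
  have h5 : (univ.filter (fun y : F => y ≠ 0 ∧ (y ∈ Y ↔ y ∈ T))).card + 1 ≤
      ((univ : Finset (Option F)).filter
        (fun r => pos u 0 r ∈ sw (K0 (AA g n) (BB g n)) T r)).card := by
    have h6 : insert (none : Option F) ((univ.filter (fun y : F => y ≠ 0 ∧ (y ∈ Y ↔ y ∈ T))).image
        some) ⊆ (univ : Finset (Option F)).filter
        (fun r => pos u 0 r ∈ sw (K0 (AA g n) (BB g n)) T r) := by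
      intro r hr
      rw [mem_insert, mem_image] at hr
      rw [mem_filter]
      refine ⟨mem_univ _, ?_⟩
      rcases hr with rfl | ⟨y, hy, rfl⟩
      · have : (none : Option F) ∉ T.image some := by
          rw [mem_image]
          rintro ⟨y, hy, h⟩
          exact Option.some_ne_none _ h
        simp only [sw, if_neg this, pos, K0]
        exact hu
      · rw [mem_filter] at hy
        obtain ⟨-, hy0, hyY⟩ := hy
        have e1 : pos u 0 (some y) = u * y := by simp [pos]
        have e2 : (some y ∈ T.image some) ↔ y ∈ T := by simp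
        have e4 : u * y ∈ mulS (BB g n) y := by
          rw [mem_mulS hy0, mul_div_cancel_right₀ _ hy0]
          exact hu
        have e3 : u * y ∈ K0 (AA g n) (BB g n) (some y) ↔ u * y ∉ AA g n := by
          simp only [K0, if_neg hy0, Finset.mem_symmDiff]
          tauto
        rw [e1]
        unfold sw
        rw [hmemY y] at hyY
        by_cases hyT : y ∈ T
        · rw [if_pos (e2.2 hyT), mem_compl, e3]
          tauto
        · rw [if_neg (fun h => hyT (e2.1 h)), e3]
          tauto
    have h7 := card_le_card h6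
    rw [card_insert_of_notMem, card_image_of_injective _ (Option.some_injective _)] at h7
    · exact h7
    · rw [mem_image]
      rintro ⟨y, hy, h⟩
      exact Option.some_ne_none _ h
  rw [hYc] at h1 h3
  push_cast at h1
  have h8 : ((univ.filter (fun y : F => y ≠ 0 ∧ (y ∈ Y ↔ y ∈ T))).card : ℤ) + 1 ≤
      ((univ : Finset (Option F)).filter
        (fun r => pos u 0 r ∈ sw (K0 (AA g n) (BB g n)) T r)).card := by exact_mod_cast h5
  have h9 : 3 * (n : ℤ) ≤ (Y ∩ T).card := by
    have : 3 * n ≤ (Y ∩ T).card := by omega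
    exact_mod_cast this
  linarith

end

end Pool.Agent.H598R3
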