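import Mathlib

/-!
Combinatorial model of `PG(2,q)` with a distinguished centre `Q` (the point `none`).
-/

set_option autoImplicit false
set_option linter.unusedSectionVars false

namespace Pool.Agent.H598R3

open Finset

variable {F : Type*} [Field F] [Fintype F] [DecidableEq F]

/-- points of the model: `none` is the centre, `some (x, r)` is the point number `x` of the
line `r` through the centre -/
abbrev Pt (F : Type*) := Option (F × Option F)

/-- incidence with the line number `r` through the centre -/
def OnRow (r : Option F) (p : Pt F) : Prop := p = none ∨ ∃ x, p = some (x, r)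

/-- incidence with the line `(u, v)` which misses the centre -/
def OnLin (u v : F) (p : Pt F) : Prop := p = some (u, none) ∨ ∃ y, p = some (u * y + v, some y)

/-- the set given by a family of subsets of the lines through the centre -/
def mk (s : Option F → Finset F) (d : Bool) : Finset (Pt F) :=
  (if d then {none} else ∅) ∪ ((univ : Finset (Option F)).sigma s).image (fun p => some (p.2, p.1))

lemma mem_mk_none (s : Option F → Finset F) (d : Bool) : (none : Pt F) ∈ mk s d ↔ d = true := by
  unfold mk
  cases d <;> simp

lemma mem_mk_some (s : Option F → Finset F) (d : Bool) (x : F) (r : Option F) :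
    (some (x, r) : Pt F) ∈ mk s d ↔ x ∈ s r := by
  unfold mk
  constructor
  · intro h
    rw [mem_union] at h
    rcases h with h | h
    · cases d <;> simp at h
    · rw [mem_image] at h
      obtain ⟨⟨r', x'⟩, h1, h2⟩ := h
      rw [mem_sigma] at h1
      simp only [Option.some.injEq, Prod.mk.injEq] at h2
      obtain ⟨h3, h4⟩ := h2
      subst h3 h4
      exact h1.2
  · intro h
    rw [mem_union]
    right
    rw [mem_image]
    exact ⟨⟨r, x⟩, by simpa using h, rfl⟩

lemma card_mk (s : Option F → Finset F) (d : Bool) :
    (mk s d).card = (∑ r, (s r).card) + (if d then 1 else 0) := by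
  unfold mk
  rw [card_union_of_disjoint, card_image_of_injective, card_sigma]
  · cases d <;> simp [add_comm]
  · rintro ⟨r, x⟩ ⟨r', x'⟩ h
    simp only [Option.some.injEq, Prod.mk.injEq] at h
    obtain ⟨h1, h2⟩ := h
    subst h1 h2
    rfl
  · rw [Finset.disjoint_left]
    intro p hp hq
    rw [mem_image] at hq
    obtain ⟨a, -, h⟩ := hq
    cases d
    · simp at hp
    · simp at hp
      rw [hp] at h
      simp at h

open Classical in
lemma card_row (s : Option F → Finset F) (d : Bool) (r : Option F) :
    ((mk s d).filter (OnRow r)).card = (s r).card + (if d then 1 else 0) := by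
  have h : (mk s d).filter (OnRow r) =
      (if d then {none} else ∅) ∪ (s r).image (fun x => (some (x, r) : Pt F)) := by
    ext p
    rw [mem_filter, mem_union, mem_image]
    cases p with
    | none =>
      rw [mem_mk_none]
      cases d <;> simp [OnRow]
    | some p =>
      obtain ⟨x, r'⟩ := p
      rw [mem_mk_some]
      constructor
      · rintro ⟨h1, h2⟩
        right
        rcases h2 with h2 | ⟨x', h2⟩
        · simp at h2
        · simp only [Option.some.injEq, Prod.mk.injEq] at h2
          obtain ⟨h3, h4⟩ := h2
          subst h3 h4
          exact ⟨x, h1, rfl⟩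
      · rintro (h1 | ⟨x', h1, h2⟩)
        · cases d <;> simp at h1
        · simp only [Option.some.injEq, Prod.mk.injEq] at h2
          obtain ⟨h3, h4⟩ := h2
          subst h3 h4
          exact ⟨h1, Or.inr ⟨_, rfl⟩⟩
  rw [h, card_union_of_disjoint, card_image_of_injective]
  · cases d <;> simp [add_comm]
  · intro x x' h
    simpa using h
  · rw [Finset.disjoint_left]
    intro p hp hq
    rw [mem_image] at hq
    obtain ⟨a, -, h9⟩ := hq
    cases d
    · simp at hp
    · simp at hp
      rw [hp] at h9
      simp at h9

open Classical in
lemma card_lin (s : Option F → Finset F) (d : Bool) (u v : F) :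
    ((mk s d).filter (OnLin u v)).card =
      ((univ : Finset F).filter (fun y => u * y + v ∈ s (some y))).card +
        (if u ∈ s none then 1 else 0) := by
  have h : (mk s d).filter (OnLin u v) =
      (if u ∈ s none then {(some (u, none) : Pt F)} else ∅) ∪
      ((univ : Finset F).filter (fun y => u * y + v ∈ s (some y))).image
        (fun y => (some (u * y + v, some y) : Pt F)) := by
    ext p
    rw [mem_filter, mem_union, mem_image]
    cases p with
    | none =>
      rw [mem_mk_none]
      constructor
      · rintro ⟨-, h2⟩
        rcases h2 with h2 | ⟨y, h2⟩ <;> simp at h2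
      · rintro (h1 | ⟨y, -, h2⟩)
        · split_ifs at h1 <;> simp at h1
        · simp at h2
    | some p =>
      obtain ⟨x, r'⟩ := p
      rw [mem_mk_some]
      constructor
      · rintro ⟨h1, h2⟩
        rcases h2 with h2 | ⟨y, h2⟩
        · left
          simp only [Option.some.injEq, Prod.mk.injEq] at h2
          obtain ⟨h3, h4⟩ := h2
          subst h3 h4
          simp [h1]
        · right
          simp only [Option.some.injEq, Prod.mk.injEq] at h2
          obtain ⟨h3, h4⟩ := h2
          subst h3 h4
          exact ⟨y, by simpa using h1, rfl⟩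
      · rintro (h1 | ⟨y, h1, h2⟩)
        · split_ifs at h1 with h3
          · simp only [mem_singleton, Option.some.injEq, Prod.mk.injEq] at h1
            obtain ⟨h4, h5⟩ := h1
            subst h4 h5
            exact ⟨h3, Or.inl rfl⟩
          · simp at h1
        · simp only [Option.some.injEq, Prod.mk.injEq] at h2
          obtain ⟨h3, h4⟩ := h2
          subst h3 h4
          exact ⟨(mem_filter.1 h1).2, Or.inr ⟨y, rfl⟩⟩
  rw [h, card_union_of_disjoint, card_image_of_injective]
  · split_ifs <;> simp [add_comm]
  · intro y y' h
    simp only [Option.some.injEq, Prod.mk.injEq] at h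
    exact h.2
  · rw [Finset.disjoint_left]
    intro p hp hq
    rw [mem_image] at hq
    obtain ⟨a, -, h9⟩ := hq
    split_ifs at hp
    · simp at hp
      rw [hp] at h9
      simp at h9
    · simp at hp

open Classical in
/-- no line of the model meets `S` in exactly `k` points -/
def Avoid (k : ℕ) (S : Finset (Pt F)) : Prop :=
  (∀ r, (S.filter (OnRow r)).card ≠ k) ∧ ∀ u v, (S.filter (OnLin u v)).card ≠ k

/-- a size which occurs -/
def Sz (F : Type*) [Field F] [Fintype F] [DecidableEq F] (k m : ℕ) : Prop :=
  ∃ S : Finset (Pt F), S.card = m ∧ Avoid k S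

open Classical in
lemma card_row_univ (r : Option F) :
    ((univ : Finset (Pt F)).filter (OnRow r)).card = Fintype.card F + 1 := by
  have h : (univ : Finset (Pt F)) = mk (fun _ => univ) true := by
    ext p
    cases p with
    | none => simp [mem_mk_none]
    | some p => obtain ⟨x, r⟩ := p; simp [mem_mk_some]
  rw [h, card_row]
  simp

open Classical in
lemma card_lin_univ (u v : F) :
    ((univ : Finset (Pt F)).filter (OnLin u v)).card = Fintype.card F + 1 := by
  have h : (univ : Finset (Pt F)) = mk (fun _ => univ) true := by
    ext p
    cases p with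
    | none => simp [mem_mk_none]
    | some p => obtain ⟨x, r⟩ := p; simp [mem_mk_some]
  rw [h, card_lin]
  simp

lemma card_pt : Fintype.card (Pt F) = Fintype.card F ^ 2 + Fintype.card F + 1 := by
  simp only [Fintype.card_option, Fintype.card_prod]
  ring

/-- complements -/
lemma Sz.compl {k k' m m' : ℕ} (h : Sz F k m) (hk : k + k' = Fintype.card F + 1)
    (hm : m + m' = Fintype.card F ^ 2 + Fintype.card F + 1) : Sz F k' m' := by
  classical
  obtain ⟨S, hS, h1, h2⟩ := h
  refine ⟨Sᶜ, ?_, ?_, ?_⟩
  · rw [card_compl, card_pt, hS]
    omega
  · intro r hr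
    apply h1 r
    have h3 := Finset.card_filter_add_card_filter_not (s := (univ : Finset (Pt F)).filter (OnRow r))
      (fun p => p ∈ S)
    rw [card_row_univ, filter_filter, filter_filter] at h3
    have h4 : (univ : Finset (Pt F)).filter (fun p => OnRow r p ∧ p ∈ S) = S.filter (OnRow r) := by
      ext p; simp [and_comm]
    have h5 : (univ : Finset (Pt F)).filter (fun p => OnRow r p ∧ p ∉ S) = Sᶜ.filter (OnRow r) := by
      ext p; simp [and_comm]
    rw [h4, h5] at h3
    omega
  · intro u v hr
    apply h2 u v
    have h3 := Finset.card_filter_add_card_filter_not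
      (s := (univ : Finset (Pt F)).filter (OnLin u v)) (fun p => p ∈ S)
    rw [card_lin_univ, filter_filter, filter_filter] at h3
    have h4 : (univ : Finset (Pt F)).filter (fun p => OnLin u v p ∧ p ∈ S) =
        S.filter (OnLin u v) := by
      ext p; simp [and_comm]
    have h5 : (univ : Finset (Pt F)).filter (fun p => OnLin u v p ∧ p ∉ S) =
        Sᶜ.filter (OnLin u v) := by
      ext p; simp [and_comm]
    rw [h4, h5] at h3
    omega

end Pool.Agent.H598R3
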