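import Pool.Agent.H598R3.AvModel

/-!
Lines as functions on the pencil of the centre; small sizes; parity under switching.
-/

set_option autoImplicit false
set_option linter.unusedSectionVars false

namespace Pool.Agent.H598R3

open Finset

variable {F : Type*} [Field F] [Fintype F] [DecidableEq F]

/-- the point of the line `(u, v)` on the line number `r` through the centre -/
def pos (u v : F) : Option F → F
  | none => u
  | some y => u * y + v

lemma card_lin' (s : Option F → Finset F) (d : Bool) (u v : F) [DecidablePred (OnLin u v)] :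
    ((mk s d).filter (OnLin u v)).card =
      ((univ : Finset (Option F)).filter (fun r => pos u v r ∈ s r)).card := by
  have h := card_lin s d u v
  have h0 : ((mk s d).filter (OnLin u v)).card =
      (@filter _ (OnLin u v) (fun a => Classical.propDecidable _) (mk s d)).card := by
    congr
  rw [h0]
  refine Eq.trans ?_ (h.trans ?_)
  · congr
  · rw [card_filter, card_filter, Fintype.sum_option]
    simp only [pos]
    rw [add_comm]
    congr!

lemma lin_le (s : Option F → Finset F) (u v : F) :
    ((univ : Finset (Option F)).filter (fun r => pos u v r ∈ s r)).card ≤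
      ((univ : Finset (Option F)).filter (fun r => (s r).Nonempty)).card := by
  apply card_le_card
  intro r hr
  rw [mem_filter] at hr ⊢
  exact ⟨hr.1, ⟨_, hr.2⟩⟩

lemma exists_small (k a b : ℕ) (hk3 : 3 ≤ k) (hkq : k < Fintype.card F) (hak : a + 3 ≤ k)
    (hb : b < Fintype.card F) : Sz F k (a * Fintype.card F + b) := by
  classical
  have hopt : (univ : Finset (Option F)).card = Fintype.card F + 1 := by simp
  obtain ⟨Y, hY⟩ := Finset.exists_subset_card_eq (s := (univ : Finset (Option F))) (n := a)
    (by rw [hopt]; omega)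
  obtain ⟨-, hYc⟩ := hY
  have h2 : 1 < (Yᶜ).card := by
    rw [card_compl, Fintype.card_option, hYc]; omega
  obtain ⟨r1, hr1, r2, hr2, hne⟩ := Finset.one_lt_card.1 h2
  rw [mem_compl] at hr1 hr2
  obtain ⟨b1, b2, hb12, hb1k, hb2k, hb1q, hb2q⟩ : ∃ b1 b2 : ℕ, b1 + b2 = b ∧ b1 ≠ k ∧ b2 ≠ k ∧
      b1 ≤ Fintype.card F ∧ b2 ≤ Fintype.card F := by
    by_cases hbk : b = k
    · exact ⟨b - 1, 1, by omega, by omega, by omega, by omega, by omega⟩
    · exact ⟨b, 0, by omega, hbk, by omega, by omega, by omega⟩
  obtain ⟨P1, -, hP1⟩ := Finset.exists_subset_card_eq (s := (univ : Finset F)) (n := b1)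
    (by rw [card_univ]; omega)
  obtain ⟨P2, -, hP2⟩ := Finset.exists_subset_card_eq (s := (univ : Finset F)) (n := b2)
    (by rw [card_univ]; omega)
  set s : Option F → Finset F := fun r =>
    if r ∈ Y then univ else if r = r1 then P1 else if r = r2 then P2 else ∅ with hs
  have hs1 : ∀ r ∈ Y, s r = univ := by
    intro r hr; simp only [hs, if_pos hr]
  have hsr1 : s r1 = P1 := by simp only [hs, if_neg hr1, if_true]
  have hsr2 : s r2 = P2 := by simp only [hs, if_neg hr2, if_neg hne.symm, if_true]
  have hs0 : ∀ r, r ∉ Y → r ≠ r1 → r ≠ r2 → s r = ∅ := by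
    intro r h1 h2 h3; simp only [hs, if_neg h1, if_neg h2, if_neg h3]
  refine ⟨mk s false, ?_, ?_, ?_⟩
  · rw [card_mk]
    have h3 : ∑ r, (s r).card = ∑ r ∈ Y, (s r).card + ∑ r ∈ Yᶜ, (s r).card :=
      (Finset.sum_add_sum_compl Y _).symm
    have h4 : ∑ r ∈ Y, (s r).card = a * Fintype.card F := by
      rw [Finset.sum_congr rfl (g := fun _ => Fintype.card F), sum_const, hYc, smul_eq_mul]
      intro r hr; rw [hs1 r hr, card_univ]
    have h5 : ∑ r ∈ Yᶜ, (s r).card = ∑ r ∈ ({r1, r2} : Finset (Option F)), (s r).card := by
      symm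
      apply Finset.sum_subset
      · intro r hr
        rw [mem_insert, mem_singleton] at hr
        rw [mem_compl]
        rcases hr with rfl | rfl <;> assumption
      · intro r hr hr'
        rw [mem_insert, mem_singleton, not_or] at hr'
        rw [mem_compl] at hr
        rw [hs0 r hr hr'.1 hr'.2, card_empty]
    rw [h3, h4, h5, Finset.sum_pair hne, hsr1, hsr2, hP1, hP2]
    simp; omega
  · intro r
    rw [card_row]
    simp only [Bool.false_eq_true, if_false, add_zero]
    by_cases h3 : r ∈ Y
    · rw [hs1 r h3, card_univ]; omega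
    by_cases h4 : r = r1
    · rw [h4, hsr1, hP1]; exact hb1k
    by_cases h5 : r = r2
    · rw [h5, hsr2, hP2]; exact hb2k
    · rw [hs0 r h3 h4 h5, card_empty]; omega
  · intro u v
    rw [card_lin']
    have h3 := lin_le s u v
    have h4 : ((univ : Finset (Option F)).filter (fun r => (s r).Nonempty)).card ≤
        (Y ∪ {r1, r2}).card := by
      apply card_le_card
      intro r hr
      rw [mem_filter] at hr
      rw [mem_union, mem_insert, mem_singleton]
      by_contra hcon
      rw [not_or, not_or] at hcon
      rw [hs0 r hcon.1 hcon.2.1 hcon.2.2] at hr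
      exact Finset.not_nonempty_empty hr.2
    have h5 : (Y ∪ {r1, r2}).card ≤ a + 2 := by
      refine (card_union_le _ _).trans ?_
      have : ({r1, r2} : Finset (Option F)).card ≤ 2 := card_le_two
      omega
    omega

/-- parity under switching -/
lemma parity_switch (K : Option F → Finset F) (T : Finset (Option F)) (x : Option F → F) :
    (((univ : Finset (Option F)).filter
      (fun r => x r ∈ (if r ∈ T then (K r)ᶜ else K r))).card : ZMod 2) =
    (((univ : Finset (Option F)).filter (fun r => x r ∈ K r)).card : ZMod 2) + (T.card : ZMod 2) := by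
  rw [card_filter, card_filter]
  push_cast
  have h1 : (T.card : ZMod 2) = ∑ r : Option F, (if r ∈ T then (1 : ZMod 2) else 0) := by
    rw [Finset.sum_boole]
    congr 2
    ext r; simp
  rw [h1, ← Finset.sum_add_distrib]
  apply Finset.sum_congr rfl
  intro r _
  by_cases h2 : r ∈ T
  · simp only [h2, if_true, mem_compl]
    by_cases h3 : x r ∈ K r
    · simp only [h3, not_true, if_false, if_true]; decide
    · simp only [h3, not_false_eq_true, if_false, if_true]; decide
  · simp only [h2, if_false, add_zero]

lemma card_switch (K : Option F → Finset F) (T : Finset (Option F)) :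
    (∑ r, ((if r ∈ T then (K r)ᶜ else K r).card : ℤ)) =
      (∑ r, ((K r).card : ℤ)) + ∑ r ∈ T, ((Fintype.card F : ℤ) - 2 * (K r).card) := by
  have h1 : ∑ r ∈ T, ((Fintype.card F : ℤ) - 2 * (K r).card) =
      ∑ r : Option F, (if r ∈ T then ((Fintype.card F : ℤ) - 2 * (K r).card) else 0) := by
    rw [Finset.sum_ite_mem, Finset.univ_inter]
  rw [h1, ← Finset.sum_add_distrib]
  apply Finset.sum_congr rfl
  intro r _
  by_cases h2 : r ∈ T
  · simp only [h2, if_true]
    rw [card_compl, Nat.cast_sub (card_le_univ _)]
    ring
  · simp only [h2, if_false, add_zero]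

end Pool.Agent.H598R3
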